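import Pool.Agent.SPR.Cx
import Pool.Agent.SPU.Cpp
import Pool.Agent.SPU.Cp

/-!
# The unknown functions at a closed point, with signs
-/

set_option autoImplicit false

noncomputable section

namespace Pool.Agent.SPU

open Pool.Agent.SRF Pool.Agent.CPT Pool.Agent.SPR
open scoped Classical

theorem sg_smul_mem {k F : Type} [Field k] [Field F] [Algebra k F] {x y : F}
    {D : PP k x y → ℤ} {s f : F} (hs : CPU.Sg s) (hf : f ∈ L k x y D) : s * f ∈ L k x y D := by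
  rcases hs with rfl | rfl
  · rwa [one_mul]
  · rw [neg_one_mul]
    exact Submodule.neg_mem _ hf

theorem sg_ne {F : Type} [Field F] {s : F} (hs : CPU.Sg s) : s ≠ 0 := by
  rcases hs with rfl | rfl
  · exact one_ne_zero
  · exact neg_ne_zero.mpr one_ne_zero

theorem sg_mul {F : Type} [Field F] {s t : F} (hs : CPU.Sg s) (ht : CPU.Sg t) :
    CPU.Sg (s * t) := by
  rcases hs with rfl | rfl <;> rcases ht with rfl | rfl
  · left; ring
  · right; ring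
  · right; ring
  · left; ring

theorem sg_sq {F : Type} [Field F] {s : F} (hs : CPU.Sg s) : s * s = 1 := by
  rcases hs with rfl | rfl <;> ring

theorem sg_pow {F : Type} [Field F] {s : F} (hs : CPU.Sg s) (M : ℕ) : CPU.Sg (s ^ M) := by
  induction M with
  | zero => left; rw [pow_zero]
  | succ M ih => rw [pow_succ]; exact sg_mul ih hs

variable {K F : Type} [Field K] [Field F] [Algebra K F] {x y : F}

theorem unknowns (CC : Fin 10 → Finset (PP K x y)) (C : PP K x y → ℤ) [Fintype (I2 x y C)]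
    {Ω Fs : Type} [Field Ω] [Field Fs] [Algebra Ω Fs] {xs ys : Fs}
    (D' : I1 x y CC ⊕ I2 x y C → PP Ω xs ys → ℤ) (hnn : ∀ j O, 0 ≤ D' j O) {K₀ B M : ℕ}
    (hM : K₀ + B + 1 ≤ M) (hB : ∀ j O, D' j O ≤ B)
    (z1 z3 z4 : I1 x y CC) (h1 : z1.1 = XV.ed 0 1) (h3 : z3.1 = XV.ed 0 3) (h4 : z4.1 = XV.ed 0 4)
    (X : (Fin 5 → Fin 5 → ℤ) → Fs) (hX : CPU.Out X)
    (hXz : ∀ i j k l, Dist i j k l → ∀ O : PP Ω xs ys, ∀ i' : I1 x y CC, D' (Sum.inl i') O ≠ 0 →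
      SameP (XV.eS i'.1, XV.eT i'.1) (i, j) → 0 < ord O.1 (X (cr i j k l)))
    (hXn : ∀ i j k l, Dist i j k l → ∀ O : PP Ω xs ys,
      (ord O.1 (X (cr i j k l)) < 0 → ∃ i' : I1 x y CC, D' (Sum.inl i') O ≠ 0 ∧
        (SameP (XV.eS i'.1, XV.eT i'.1) (i, k) ∨ SameP (XV.eS i'.1, XV.eT i'.1) (j, l))) ∧
      - (K₀ : ℤ) ≤ ord O.1 (X (cr i j k l))) :
    ∃ f : Fin 8 → Fs, (∀ ν, f ν ∈ L Ω xs ys (fun O =>
      ∑ j, dv CC C (pe ν) (kk M ν) (zz z1 z3 z4 ν) j * D' j O)) ∧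
      ∀ Φ ∈ eqs M, MvPolynomial.aeval f Φ = 0 := by
  have hX0 := hX.ne
  have hXa := hX.add
  have neg : ∀ i j k l, Dist i j k l → ∀ p : Finset (Fin 10), XV.ed i k ∈ p → XV.ed j l ∈ p →
      ∀ O : PP Ω xs ys, ord O.1 (X (cr i j k l)) < 0 →
      ∃ i' : I1 x y CC, D' (Sum.inl i') O ≠ 0 ∧ i'.1 ∈ p := by
    intro i j k l hd p hp1 hp2 O hO
    obtain ⟨i', h5, h6⟩ := (hXn i j k l hd O).1 hO
    refine ⟨i', h5, ?_⟩
    rcases h6 with h6 | h6
    · rw [edge_of_same h6]; exact hp1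
    · rw [edge_of_same h6]; exact hp2
  have hKM : (K₀ : ℤ) ≤ (M : ℤ) := by
    have : K₀ ≤ M := by omega
    exact_mod_cast this
  have A : ∀ i j k l, Dist i j k l → ∀ p : Finset (Fin 10), XV.ed i k ∈ p → XV.ed j l ∈ p →
      X (cr i j k l) ∈ L Ω xs ys (fun O => ∑ j, dv CC C p (M : ℤ) none j * D' j O) := by
    intro i j k l hd p hp1 hp2
    exact mem_of_X CC C D' hnn hKM (neg i j k l hd p hp1 hp2) fun O => (hXn i j k l hd O).2
  have Bq : ∀ i j k l, Dist i j k l → ∀ p : Finset (Fin 10), XV.ed i k ∈ p → XV.ed j l ∈ p →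
      ∀ z : I1 x y CC, z.1 = XV.ed i j →
      X (cr i j k l) ^ M ∈ L Ω xs ys (fun O =>
        ∑ j, dv CC C p ((M : ℤ) * M) (some z) j * D' j O) := by
    intro i j k l hd p hp1 hp2 z hz
    refine mem_of_pow CC C D' hnn hM hB (hX0 _ (Lam_cr i j k l hd)) z
      (neg i j k l hd p hp1 hp2) (fun O => (hXn i j k l hd O).2) ?_
    intro O hO
    refine hXz i j k l hd O z hO ?_
    rw [hz]
    exact same_of_edge hd.1
  obtain ⟨s, t, hs, ht, e0⟩ := hX.plu 0 1 2 3 (by decide)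
  obtain ⟨s', t', hs', ht', e0'⟩ := hX.plu 0 1 2 4 (by decide)
  have e1 : 1 - s * X (cr 0 1 2 3) = t * X (cr 0 3 2 1) := by
    rw [← e0]; ring
  have e2 : 1 - s' * X (cr 0 1 2 4) = t' * X (cr 0 4 2 1) := by
    rw [← e0']; ring
  refine ⟨![s * X (cr 0 1 2 3), s' * X (cr 0 1 2 4), (s * s') * X (cr 3 2 1 4),
    (t * t') * X (cr 0 3 4 1), s ^ M * X (cr 0 1 2 3) ^ M, t ^ M * X (cr 0 3 2 1) ^ M,
    s' ^ M * X (cr 0 1 2 4) ^ M, t' ^ M * X (cr 0 4 2 1) ^ M], ?_, ?_⟩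
  · intro ν
    fin_cases ν
    · exact sg_smul_mem hs (A 0 1 2 3 (by decide) _ (by decide) (by decide))
    · exact sg_smul_mem hs' (A 0 1 2 4 (by decide) _ (by decide) (by decide))
    · exact sg_smul_mem (sg_mul hs hs') (A 3 2 1 4 (by decide) _ (by decide) (by decide))
    · exact sg_smul_mem (sg_mul ht ht') (A 0 3 4 1 (by decide) _ (by decide) (by decide))
    · exact sg_smul_mem (sg_pow hs M) (Bq 0 1 2 3 (by decide) _ (by decide) (by decide) z1 h1)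
    · exact sg_smul_mem (sg_pow ht M) (Bq 0 3 2 1 (by decide) _ (by decide) (by decide) z3 h3)
    · exact sg_smul_mem (sg_pow hs' M) (Bq 0 1 2 4 (by decide) _ (by decide) (by decide) z1 h1)
    · exact sg_smul_mem (sg_pow ht' M) (Bq 0 4 2 1 (by decide) _ (by decide) (by decide) z4 h4)
  · apply eqs_of
    refine ⟨?_, ?_, ?_, ?_, ?_, ?_⟩
    · show (s * s') * X (cr 3 2 1 4) * (s' * X (cr 0 1 2 4)) = s * X (cr 0 1 2 3)
      have h5 : X (cr 3 2 1 4) * X (cr 0 1 2 4) = X (cr 0 1 2 3) := by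
        rw [← hXa _ _ (Lam_cr _ _ _ _ (by decide)) (Lam_cr _ _ _ _ (by decide)), cr_sum1]
      linear_combination (s * s' * s') * h5 + (s * X (cr 0 1 2 3)) * sg_sq hs'
    · show (t * t') * X (cr 0 3 4 1) * (1 - s' * X (cr 0 1 2 4)) = 1 - s * X (cr 0 1 2 3)
      have h5 : X (cr 0 3 4 1) * X (cr 0 4 2 1) = X (cr 0 3 2 1) := by
        rw [← hXa _ _ (Lam_cr _ _ _ _ (by decide)) (Lam_cr _ _ _ _ (by decide)), cr_sum2]
      rw [e1, e2]
      linear_combination (t * t' * t') * h5 + (t * X (cr 0 3 2 1)) * sg_sq ht'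
    · show s ^ M * X (cr 0 1 2 3) ^ M = (s * X (cr 0 1 2 3)) ^ M
      rw [mul_pow]
    · show t ^ M * X (cr 0 3 2 1) ^ M = (1 - s * X (cr 0 1 2 3)) ^ M
      rw [e1, mul_pow]
    · show s' ^ M * X (cr 0 1 2 4) ^ M = (s' * X (cr 0 1 2 4)) ^ M
      rw [mul_pow]
    · show t' ^ M * X (cr 0 4 2 1) ^ M = (1 - s' * X (cr 0 1 2 4)) ^ M
      rw [e2, mul_pow]

end Pool.Agent.SPU
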