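import Pool.Agent.SPR.Cp

/-!
# The rounded divisors in terms of prime divisors, for all primes
-/

set_option autoImplicit false

noncomputable section

namespace Pool.Agent.SPU

open Pool.Agent.SRF Pool.Agent.CPT Pool.Agent.SPR

section

variable {K F : Type} [Field K] [Field F] [Algebra K F] (p : ℕ) (x y : F)

/-- Multiplicities of the rounded divisors. -/
def dd (CC : Fin 10 → Finset (PP K x y)) (C : PP K x y → ℤ) (r : PP K x y → ℝ)
    (c : Fin 10 → ℤ) (n m : ℕ) : I1 x y CC ⊕ I2 x y C → ℤ :=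
  Sum.elim (fun i => (p : ℤ) ^ m * ⌊(n : ℝ) * ((c i.1 : ℝ) * r i.2.1)⌋)
    (fun i => (p : ℤ) ^ m * C i.1)

variable {x y}

theorem dec (CC : Fin 10 → Finset (PP K x y)) (r : PP K x y → ℝ)
    (honce : ∀ s s', s ≠ s' → Disjoint (CC s) (CC s')) (C : PP K x y → ℤ)
    [Fintype (I2 x y C)] (c₀ : ℤ) (c : Fin 10 → ℤ) (n m : ℕ) (O : PP K x y) :
    (p : ℤ) ^ m * (C O + DIS.rdiv x y CC r c₀ c n O) =
      ∑ j, dd p x y CC C r c n m j * dlt (EE x y CC C j) O + ((p : ℤ) ^ m * (n * c₀)) * H K x y O := by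
  classical
  rw [Fintype.sum_sum_type]
  have h2 : ∑ i : I2 x y C, dd p x y CC C r c n m (Sum.inr i) *
      dlt (EE x y CC C (Sum.inr i)) O = (p : ℤ) ^ m * C O := by
    by_cases hO : C O = 0
    · rw [hO, mul_zero]
      refine Finset.sum_eq_zero fun i _ => ?_
      have : O ≠ i.1 := fun h => i.2 (h ▸ hO)
      simp [dd, EE, dlt, this]
    · rw [Finset.sum_eq_single (⟨O, hO⟩ : I2 x y C)]
      · simp [dd, EE, dlt]
      · intro b _ hb
        have : O ≠ b.1 := fun h => hb (Subtype.ext h.symm)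
        simp [dd, EE, dlt, this]
      · intro h; exact absurd (Finset.mem_univ _) h
  have h1 : ∑ i : I1 x y CC, dd p x y CC C r c n m (Sum.inl i) *
      dlt (EE x y CC C (Sum.inl i)) O =
      (p : ℤ) ^ m * ⌊(n : ℝ) * ∑ s : Fin 10, (c s : ℝ) * (if O ∈ CC s then r O else 0)⌋ := by
    by_cases hO : ∃ s, O ∈ CC s
    · obtain ⟨s, hs⟩ := hO
      have huniq : ∀ s', O ∈ CC s' → s' = s := by
        intro s' hs'
        by_contra hne
        exact Finset.disjoint_left.mp (honce s' s hne) hs' hs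
      have e1 : ∑ s' : Fin 10, (c s' : ℝ) * (if O ∈ CC s' then r O else 0) = c s * r O := by
        rw [Finset.sum_eq_single s]
        · rw [if_pos hs]
        · intro b _ hb
          rw [if_neg (fun h => hb (huniq b h)), mul_zero]
        · intro h; exact absurd (Finset.mem_univ _) h
      rw [e1, Finset.sum_eq_single (⟨s, O, hs⟩ : I1 x y CC)]
      · simp [dd, EE, dlt]
      · rintro ⟨s', e, he⟩ _ hb
        have : O ≠ e := by
          rintro rfl
          have := huniq s' he
          subst this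
          exact hb rfl
        simp [dd, EE, dlt, this]
      · intro h; exact absurd (Finset.mem_univ _) h
    · push Not at hO
      have e1 : ∑ s' : Fin 10, (c s' : ℝ) * (if O ∈ CC s' then r O else 0) = 0 :=
        Finset.sum_eq_zero fun s' _ => by rw [if_neg (hO s'), mul_zero]
      rw [e1, mul_zero, Int.floor_zero, mul_zero]
      refine Finset.sum_eq_zero fun i _ => ?_
      have : O ≠ i.2.1 := fun h => hO i.1 (h ▸ i.2.2)
      simp [dd, EE, dlt, this]
  rw [h1, h2]
  unfold DIS.rdiv
  ring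

end

end Pool.Agent.SPU
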